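import Pool.Agent.N20.DI.Stm

/-!
# Project DI (helper20), part CL1 (helper157): Mackey's formula for restrictions
-/

set_option autoImplicit false
set_option linter.unusedSectionVars false

open scoped BigOperators Classical

noncomputable section

namespace Pool.Agent.N157.DI

open Pool.Agent.Helper884.IC

/-- transport of irreducible characters along an isomorphism -/
theorem irr_comp {H K : Type} [Group H] [Group K] (e : H ≃* K) {chi : K → ℂ}
    (h : IsIrrChar chi) : IsIrrChar (fun x => chi (e x)) := by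
  obtain ⟨V, i1, i2, i3, rho, hr, rfl⟩ := h
  let rho' : Representation ℂ H V := rho.comp e.toMonoidHom
  refine ⟨V, i1, i2, i3, rho', ?_, rfl⟩
  let F : Subrepresentation rho' ≃o Subrepresentation rho :=
    { toFun := fun S => ⟨S.toSubmodule, fun g v hv => by
        have := S.apply_mem_toSubmodule (e.symm g) hv
        have h2 : rho' (e.symm g) v = rho g v := by
          change rho (e (e.symm g)) v = _
          rw [e.apply_symm_apply]
        rwa [h2] at this⟩
      invFun := fun S => ⟨S.toSubmodule, fun g v hv => S.apply_mem_toSubmodule (e g) hv⟩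
      left_inv := fun S => rfl
      right_inv := fun S => rfl
      map_rel_iff' := Iff.rfl }
  exact F.isSimpleOrder_iff.mpr hr

section
variable {M : Type} [Group M] [Fintype M] (N : Subgroup M)

/-- extension by zero -/
def ex (φ : N → ℂ) (x : M) : ℂ := if h : x ∈ N then φ ⟨x, h⟩ else 0

/-- the induced class function -/
def ind (φ : N → ℂ) (x : M) : ℂ := (Nat.card N : ℂ)⁻¹ * ∑ y : M, ex N φ (y⁻¹ * x * y)

theorem isClass_ind (φ : N → ℂ) : IsClass (ind N φ) := by
  intro g y
  unfold ind
  congr 1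
  refine Fintype.sum_equiv (Equiv.mulLeft y⁻¹) _ _ fun z => ?_
  simp only [Equiv.coe_mulLeft]
  congr 1
  group

theorem sum_cj (f : M → ℂ) (y : M) : ∑ g : M, f (y * g * y⁻¹) = ∑ g : M, f g := by
  refine Fintype.sum_equiv (MulAut.conj y).toEquiv _ _ fun z => ?_
  simp

theorem frob (φ : N → ℂ) (f : M → ℂ) (hf : IsClass f) :
    B (ind N φ) f = (Nat.card N : ℂ)⁻¹ * ∑ g : M, ex N φ g * f g⁻¹ := by
  unfold B ind
  simp only [Finset.mul_sum, Finset.sum_mul]
  rw [Finset.sum_comm]
  have h1 : ∀ y : M, ∑ g : M, (Nat.card M : ℂ)⁻¹ *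
      ((Nat.card N : ℂ)⁻¹ * ex N φ (y⁻¹ * g * y) * f g⁻¹)
      = ∑ g : M, (Nat.card M : ℂ)⁻¹ * ((Nat.card N : ℂ)⁻¹ * (ex N φ g * f g⁻¹)) := by
    intro y
    rw [← sum_cj _ y]
    refine Finset.sum_congr rfl fun g _ => ?_
    have e1 : y⁻¹ * (y * g * y⁻¹) * y = g := by group
    have e2 : (y * g * y⁻¹)⁻¹ = y * g⁻¹ * y⁻¹ := by group
    rw [e1, e2, hf]
    ring
  simp only [h1]
  rw [Finset.sum_const, Finset.card_univ, ← Nat.card_eq_fintype_card, nsmul_eq_mul]
  rw [Finset.mul_sum]
  refine Finset.sum_congr rfl fun g _ => ?_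
  field_simp [cardG_ne (G := M)]

theorem sum_ex [Fintype N] (φ : N → ℂ) (f : M → ℂ) :
    ∑ g : M, ex N φ g * f g = ∑ c : N, φ c * f c := by
  have h1 : ∑ g : M, ex N φ g * f g = ∑ g ∈ Finset.univ.filter (· ∈ N), ex N φ g * f g := by
    rw [Finset.sum_filter]
    refine Finset.sum_congr rfl fun g _ => ?_
    by_cases h : g ∈ N
    · simp [h]
    · simp [h, ex]
  rw [h1]
  rw [Finset.sum_subtype (p := fun g => g ∈ N) (F := inferInstance) _ (by simp)]
  refine Finset.sum_congr rfl fun g _ => ?_
  simp [ex]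

/-- Frobenius reciprocity -/
theorem frob' [Fintype N] (φ : N → ℂ) (f : M → ℂ) (hf : IsClass f) :
    B (ind N φ) f = B φ (fun n : N => f n) := by
  rw [frob N φ f hf, sum_ex N φ (fun g => f g⁻¹)]
  rfl

/-- restriction of an induced function to a normal subgroup -/
theorem res_ind [N.Normal] [Fintype N] (φ ψ : N → ℂ) :
    B (fun n : N => ind N φ n) ψ =
      (Nat.card N : ℂ)⁻¹ * ∑ y : M, B (fun n : N => φ (MulAut.conjNormal y⁻¹ n)) ψ := by
  have e : (fun n : N => ind N φ n) =
      (Nat.card N : ℂ)⁻¹ • ∑ y : M, (fun n : N => φ (MulAut.conjNormal y⁻¹ n)) := by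
    funext n
    simp only [ind, Pi.smul_apply, Finset.sum_apply, smul_eq_mul]
    congr 1
    refine Finset.sum_congr rfl fun y _ => ?_
    have hm : y⁻¹ * (n : M) * y ∈ N := by
      have := (inferInstance : N.Normal).conj_mem n n.2 y⁻¹
      simpa using this
    rw [ex, dif_pos hm]
    congr 1
    apply Subtype.ext
    simp
  rw [e, B_smul_left, B_sum_left]

theorem CL1 : Pool.Agent.N20.DI.S_CL1 := by
  intro M _ _ N _ _ ψ φ hψ hφ
  have h1 := res_ind N φ ψ
  have h2 : B (fun n : N => ind N φ n) ψ =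
      ∑ χ ∈ Irr M, B (fun n : N => χ n) ψ * B (fun n : N => χ n) φ := by
    have e : (fun n : N => ind N φ n) =
        ∑ χ ∈ Irr M, B (ind N φ) χ • (fun n : N => χ n) := by
      funext n
      have := congrFun (expand (ind N φ) (isClass_ind N φ)) n
      rw [this]
      simp only [Finset.sum_apply, Pi.smul_apply]
    rw [e, B_sum_left]
    refine Finset.sum_congr rfl fun χ hχ => ?_
    rw [B_smul_left, frob' N φ χ (mem_Irr.mp hχ).isClass, B_comm φ, mul_comm]
  rw [← h2, h1, ← mul_assoc, mul_inv_cancel₀ cardG_ne, one_mul]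
  have h3 : ∀ y : M, B (fun n : N => φ (MulAut.conjNormal y⁻¹ n)) ψ =
      if (∀ n n' : N, (n' : M) = y * n * y⁻¹ → ψ n' = φ n) then 1 else 0 := by
    intro y
    have hirr : IsIrrChar (fun n : N => φ (MulAut.conjNormal y⁻¹ n)) :=
      irr_comp (MulAut.conjNormal y⁻¹) hφ
    rw [B_irr hirr hψ]
    have hiff : ((fun n : N => φ (MulAut.conjNormal y⁻¹ n)) = ψ) ↔
        (∀ n n' : N, (n' : M) = y * n * y⁻¹ → ψ n' = φ n) := by
      constructor
      · intro h n n' hn
        rw [← h]
        have : MulAut.conjNormal y⁻¹ n' = n := by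
          apply Subtype.ext
          rw [MulAut.conjNormal_apply, hn]
          group
        simp only [this]
      · intro h
        funext n'
        have := h (MulAut.conjNormal y⁻¹ n') n' (by rw [MulAut.conjNormal_apply]; group)
        exact this.symm
    by_cases h : (∀ n n' : N, (n' : M) = y * n * y⁻¹ → ψ n' = φ n)
    · rw [if_pos h, if_pos (hiff.mpr h)]
    · rw [if_neg h, if_neg (fun h' => h (hiff.mp h'))]
  rw [Finset.sum_congr rfl fun y _ => h3 y, Finset.sum_boole, Nat.card_eq_fintype_card,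
    Fintype.card_subtype]

end

end Pool.Agent.N157.DI
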